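import Mathlib
import Pool.Agent.Work.MP_dd1e4a_gt.Stmt
import Pool.Agent.Work.MP_dd1e4a_gt.Bridge

set_option autoImplicit false

namespace Pool.Agent.Results.MP_dd1e4a_gt.EigenvalueRate

open scoped Manifold ContDiff
open MeasureTheory DDS

/-- Question 1 has a positive answer: every eigenvalue of `□_s = ∂̄*∂̄` on the fibres converges to
the corresponding eigenvalue of the singular fibre at least at the rate `1 / log (1 / |s|)`. The
first statement says that the fibre area measures used in the second one exist. -/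
theorem result {X : Type} [TopologicalSpace X] [T2Space X] [SecondCountableTopology X]
    [ChartedSpace (ℂ × ℂ) X] [IsManifold 𝓘(ℂ, ℂ × ℂ) ω X] [MeasurableSpace X] [BorelSpace X]
    (g : HermMetric X) (f : X → ℂ) (hf : ContMDiff 𝓘(ℂ, ℂ × ℂ) 𝓘(ℂ, ℂ) ω f)
    (hdisc : Set.range f = Metric.ball 0 1)
    (hproper : ∀ K ⊆ Metric.ball (0 : ℂ) 1, IsCompact K → IsCompact (f ⁻¹' K))
    (hsing : ∀ x ∈ Crit f, f x = 0) (hcrit : (Crit f).Finite) :
    (∀ s : ℂ, ∃ μ : Measure X, IsFibreArea g f s μ) ∧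
    ∀ μ : ℂ → Measure X, (∀ s ∈ Metric.ball (0 : ℂ) 1, IsFibreArea g f s (μ s)) →
      ∀ k : ℕ, ∃ C > 0, ∃ r ∈ Set.Ioo (0 : ℝ) 1, ∀ s : ℂ, 0 < ‖s‖ → ‖s‖ < r →
        |lam g f (μ s) k - lam g f (μ 0) k| ≤ C / Real.log (1 / ‖s‖) := by
  obtain ⟨h1, h2⟩ := DD.main g.toDD f hf hdisc hproper hsing hcrit
  refine ⟨fun s => ?_, fun μ hμ k => ?_⟩
  · obtain ⟨μ, hμ⟩ := h1 s
    exact ⟨μ, (isFibreArea_iff g f s μ).mpr hμ⟩
  · exact h2 μ (fun s hs => (isFibreArea_iff g f s (μ s)).mp (hμ s hs)) k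

end Pool.Agent.Results.MP_dd1e4a_gt.EigenvalueRate
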